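import Pool.Agent.W832.KMP.Spec

/-! Linear algebra of real symmetric matrices which kill a given vector `p`. -/

set_option autoImplicit false

open Finset Matrix

namespace Pool.Agent.Y389.KM

open Pool.Agent.W832.KMP (diag_data dot_mulVec_symm)

variable {ι : Type} [Fintype ι] [DecidableEq ι]

/-- `y` is an eigenvalue with an eigenvector which is not a multiple of `p` -/
def EigP (A : Matrix ι ι ℝ) (p : ι → ℝ) (y : ℝ) : Prop :=
  ∃ v : ι → ℝ, A *ᵥ v = y • v ∧ ∀ a : ℝ, v ≠ a • p

theorem spec_boundP (A : Matrix ι ι ℝ) (hA : A.IsHermitian) (p : ι → ℝ) (ε β : ℝ)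
    (hβ : ∀ y, EigP A p y → |1 - ε * y| ≤ β) (φ : (ι → ℝ) →ₗ[ℝ] ℝ)
    (hφ : φ p = 0) (q : ι → ℝ) :
    ∃ C, ∀ t : ℕ, |φ ((fun x => x - ε • (A *ᵥ x))^[t] q)| ≤ C * β ^ t := by
  obtain ⟨b, μ, hb, -, hexp, -⟩ := diag_data A hA
  have hit : ∀ t : ℕ, (fun x => x - ε • (A *ᵥ x))^[t] q =
      ∑ i, ((1 - ε * μ i) ^ t * (b i ⬝ᵥ q)) • b i := by
    intro t
    induction t with
    | zero => simpa using hexp q
    | succ t ih =>
      rw [Function.iterate_succ_apply', ih]
      have h1 : A *ᵥ (∑ i, ((1 - ε * μ i) ^ t * (b i ⬝ᵥ q)) • b i) =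
          ∑ i, ((1 - ε * μ i) ^ t * (b i ⬝ᵥ q)) • (μ i • b i) := by
        have := map_sum A.mulVecLin (fun i => ((1 - ε * μ i) ^ t * (b i ⬝ᵥ q)) • b i) univ
        simp only [mulVecLin_apply] at this
        rw [this]
        apply Finset.sum_congr rfl
        intro i _
        rw [mulVec_smul, hb i]
      rw [h1, Finset.smul_sum, ← Finset.sum_sub_distrib]
      apply Finset.sum_congr rfl
      intro i _
      rw [smul_smul, smul_smul, ← sub_smul]
      congr 1
      ring
  refine ⟨∑ i, |b i ⬝ᵥ q| * |φ (b i)|, fun t => ?_⟩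
  rw [hit t, map_sum, Finset.sum_mul]
  refine (Finset.abs_sum_le_sum_abs _ _).trans (Finset.sum_le_sum fun i _ => ?_)
  rw [map_smul, smul_eq_mul, abs_mul, abs_mul, abs_pow]
  by_cases hc : ∃ a : ℝ, b i = a • p
  · obtain ⟨a, ha⟩ := hc
    rw [ha, map_smul, hφ]; simp
  · push Not at hc
    have h2 : |1 - ε * μ i| ≤ β := hβ _ ⟨b i, hb i, hc⟩
    have h3 : |1 - ε * μ i| ^ t ≤ β ^ t := pow_le_pow_left₀ (abs_nonneg _) h2 t
    calc |1 - ε * μ i| ^ t * |b i ⬝ᵥ q| * |φ (b i)| ≤ β ^ t * |b i ⬝ᵥ q| * |φ (b i)| := by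
          gcongr
      _ = _ := by ring

omit [DecidableEq ι] in
theorem mult_contra {p u v : ι → ℝ} {a a' : ℝ} (hu : u = a • p) (hv : v = a' • p)
    (hu0 : u ≠ 0) (hv0 : v ≠ 0) (h : u ⬝ᵥ v = 0) : False := by
  rw [hu, hv] at h
  simp only [smul_dotProduct, dotProduct_smul, smul_eq_mul] at h
  have h6 : a ≠ 0 := by
    intro h; apply hu0; rw [hu, h, zero_smul]
  have h7 : a' ≠ 0 := by
    intro h; apply hv0; rw [hv, h, zero_smul]
  have hp : p ≠ 0 := by
    rintro rfl
    apply hu0
    rw [hu, smul_zero]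
  have h8 : p ⬝ᵥ p ≠ 0 := by
    intro h9
    exact hp (dotProduct_self_eq_zero.1 h9)
  exact (mul_ne_zero h6 (mul_ne_zero h7 h8)) (by linarith)

/-- the complex roots of the characteristic polynomial, with one zero removed, are the
eigenvalues with eigenvectors which are not multiples of `p` -/
theorem mem_roots_eraseP (A : Matrix ι ι ℝ) (hA : A.IsHermitian) (p : ι → ℝ) (hp : p ≠ 0)
    (h1 : A *ᵥ p = 0) (z : ℂ) :
    z ∈ (A.map (fun x : ℝ => (x : ℂ))).charpoly.roots.erase 0 ↔
      ∃ y : ℝ, z = y ∧ EigP A p y := by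
  obtain ⟨b, μ, hb, horth, hexp, hchar⟩ := diag_data A hA
  have hroots : (A.map (fun x : ℝ => (x : ℂ))).charpoly.roots =
      (univ : Finset ι).val.map (fun i => (μ i : ℂ)) := by
    have e1 : (A.map (fun x : ℝ => (x : ℂ))).charpoly =
        A.charpoly.map Complex.ofRealHom := by
      rw [← Matrix.charpoly_map]
      rfl
    rw [e1, hchar, Polynomial.map_prod]
    simp only [Polynomial.map_sub, Polynomial.map_X, Polynomial.map_C]
    have := Polynomial.roots_multiset_prod_X_sub_C
      ((univ : Finset ι).val.map (fun i => (μ i : ℂ)))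
    rw [Multiset.map_map] at this
    exact this
  rw [hroots]
  have hbne : ∀ i, b i ≠ 0 := by
    intro i h0
    have := horth i i
    rw [h0] at this
    simp at this
  constructor
  · intro hz
    by_cases hz0 : z = 0
    · subst hz0
      have h2 : 0 < Multiset.count (0 : ℂ)
          (((univ : Finset ι).val.map (fun i => (μ i : ℂ))).erase 0) := Multiset.count_pos.2 hz
      rw [Multiset.count_erase_self, Multiset.count_map] at h2
      have h3 : 1 < ((univ : Finset ι).filter (fun i => (0 : ℂ) = (μ i : ℂ))).card := by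
        change 1 < Multiset.card (((univ : Finset ι).filter (fun i => (0 : ℂ) = (μ i : ℂ))).val)
        rw [Finset.filter_val]
        omega
      obtain ⟨i, hi, j, hj, hij⟩ := Finset.one_lt_card.1 h3
      rw [Finset.mem_filter] at hi hj
      have hi0 : μ i = 0 := by exact_mod_cast hi.2.symm
      have hj0 : μ j = 0 := by exact_mod_cast hj.2.symm
      refine ⟨0, by simp, ?_⟩
      by_cases hc : ∀ a : ℝ, b i ≠ a • p
      · exact ⟨b i, by rw [hb i, hi0], hc⟩
      · by_cases hc' : ∀ a : ℝ, b j ≠ a • p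
        · exact ⟨b j, by rw [hb j, hj0], hc'⟩
        · exfalso
          push Not at hc hc'
          obtain ⟨a, ha⟩ := hc
          obtain ⟨a', ha'⟩ := hc'
          have h5 := horth i j
          rw [if_neg hij] at h5
          exact mult_contra ha ha' (hbne i) (hbne j) h5
    · rw [Multiset.mem_erase_of_ne hz0, Multiset.mem_map] at hz
      obtain ⟨i, -, hi⟩ := hz
      refine ⟨μ i, hi.symm, b i, hb i, ?_⟩
      intro a ha
      have h2 : A *ᵥ b i = 0 := by rw [ha, mulVec_smul, h1, smul_zero]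
      rw [hb i] at h2
      rcases smul_eq_zero.1 h2 with h3 | h3
      · apply hz0; rw [← hi, h3]; simp
      · exact hbne i h3
  · rintro ⟨y, rfl, v, hv, hnc⟩
    have hco : ∀ w : ι → ℝ, A *ᵥ w = y • w → ∀ i, (b i ⬝ᵥ w) ≠ 0 → μ i = y := by
      intro w hw i hi
      have h2 := dot_mulVec_symm A hA (b i) w
      rw [hw, hb i, dotProduct_smul, smul_dotProduct, smul_eq_mul, smul_eq_mul] at h2
      exact (mul_right_cancel₀ hi h2).symm
    have hex : ∀ w : ι → ℝ, w ≠ 0 → ∃ i, (b i ⬝ᵥ w) ≠ 0 := by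
      intro w hw
      by_contra hcon
      push Not at hcon
      apply hw
      rw [hexp w]
      apply Finset.sum_eq_zero
      intro i _
      rw [hcon i, zero_smul]
    have hv0 : v ≠ 0 := by
      rintro rfl
      exact hnc 0 (zero_smul _ _).symm
    by_cases hy : y = 0
    · subst hy
      rw [Complex.ofReal_zero]
      suffices h3 : 1 < ((univ : Finset ι).filter (fun i => (0 : ℂ) = (μ i : ℂ))).card by
        apply Multiset.count_pos.1
        rw [Multiset.count_erase_self, Multiset.count_map]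
        change 1 < Multiset.card (((univ : Finset ι).filter (fun i => (0 : ℂ) = (μ i : ℂ))).val) at h3
        rw [Finset.filter_val] at h3
        omega
      by_contra hcon
      have hcard : ((univ : Finset ι).filter (fun i => (0 : ℂ) = (μ i : ℂ))).card ≤ 1 := by omega
      rw [Finset.card_le_one] at hcard
      obtain ⟨i, hi⟩ := hex v hv0
      have hμi := hco v hv i hi
      have h1' : A *ᵥ p = (0 : ℝ) • p := by
        rw [h1, zero_smul]
      have hall : ∀ w : ι → ℝ, A *ᵥ w = (0 : ℝ) • w → w = (b i ⬝ᵥ w) • b i := by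
        intro w hw
        conv_lhs => rw [hexp w]
        rw [Finset.sum_eq_single i]
        · intro j _ hj
          by_cases hz : (b j ⬝ᵥ w) = 0
          · rw [hz, zero_smul]
          · exfalso
            apply hj
            apply hcard
            · rw [Finset.mem_filter]; exact ⟨Finset.mem_univ _, by rw [hco w hw j hz]; simp⟩
            · rw [Finset.mem_filter]; exact ⟨Finset.mem_univ _, by rw [hμi]; simp⟩
        · intro h; exact absurd (Finset.mem_univ _) h
      have h4 := hall _ h1'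
      have h5 := hall _ hv
      have h6 : (b i ⬝ᵥ p) ≠ 0 := by
        intro h; rw [h, zero_smul] at h4; exact hp h4
      have h8 : ((b i ⬝ᵥ v) / (b i ⬝ᵥ p)) • p =
          ((b i ⬝ᵥ v) / (b i ⬝ᵥ p)) • ((b i ⬝ᵥ p) • b i) := congrArg _ h4
      rw [smul_smul, div_mul_cancel₀ _ h6, ← h5] at h8
      exact hnc _ h8.symm
    · have hy' : (y : ℂ) ≠ 0 := by exact_mod_cast hy
      rw [Multiset.mem_erase_of_ne hy', Multiset.mem_map]
      obtain ⟨i, hi⟩ := hex v hv0
      exact ⟨i, by simp, by rw [hco v hv i hi]⟩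

/-- existence of the least eigenvalue with an eigenvector which is not a multiple of `p` -/
theorem exists_leastP (A : Matrix ι ι ℝ) (hA : A.IsHermitian) (p : ι → ℝ)
    (hcard : 1 < Fintype.card ι) :
    ∃ x, EigP A p x ∧ ∀ y, EigP A p y → x ≤ y := by
  obtain ⟨b, μ, hb, horth, hexp, hchar⟩ := diag_data A hA
  have hbne : ∀ i, b i ≠ 0 := by
    intro i h0
    have := horth i i
    rw [h0] at this
    simp at this
  have hsub : {y | EigP A p y} ⊆ Set.range μ := by
    rintro y ⟨v, hv, hnc⟩
    have hv0 : v ≠ 0 := by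
      rintro rfl
      exact hnc 0 (zero_smul _ _).symm
    have : ∃ i, (b i ⬝ᵥ v) ≠ 0 := by
      by_contra hcon
      push Not at hcon
      apply hv0
      rw [hexp v]
      apply Finset.sum_eq_zero
      intro i _
      rw [hcon i, zero_smul]
    obtain ⟨i, hi⟩ := this
    refine ⟨i, ?_⟩
    have h2 := dot_mulVec_symm A hA (b i) v
    rw [hv, hb i, dotProduct_smul, smul_dotProduct, smul_eq_mul, smul_eq_mul] at h2
    exact (mul_right_cancel₀ hi h2).symm
  have hfin : {y | EigP A p y}.Finite := (Set.finite_range μ).subset hsub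
  have hne : {y | EigP A p y}.Nonempty := by
    obtain ⟨i, j, hij⟩ := Fintype.one_lt_card_iff.1 hcard
    by_cases hc : ∀ a : ℝ, b i ≠ a • p
    · exact ⟨μ i, b i, hb i, hc⟩
    · by_cases hc' : ∀ a : ℝ, b j ≠ a • p
      · exact ⟨μ j, b j, hb j, hc'⟩
      · exfalso
        push Not at hc hc'
        obtain ⟨a, ha⟩ := hc
        obtain ⟨a', ha'⟩ := hc'
        have h5 := horth i j
        rw [if_neg hij] at h5
        exact mult_contra ha ha' (hbne i) (hbne j) h5
  obtain ⟨x, hx, hmin⟩ := Set.exists_min_image _ (fun y : ℝ => y) hfin hne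
  exact ⟨x, hx, fun y hy => hmin y hy⟩

end Pool.Agent.Y389.KM
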