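import Pool.Agent.W832.KMP.Iter

/-! Weighted block averages: Dirichlet-multinomial redistribution with site parameters `α`. -/

set_option autoImplicit false

open Finset

namespace Pool.Agent.Y389.KM

open Pool.Agent.W832.KMP

variable {n : ℕ}

/-- the weight `∏ i, α i (α i + 1) ⋯ (α i + f i - 1) / (f i)!` -/
noncomputable def rho (α : Fin n → ℝ) (f : Fin n → ℕ) : ℝ :=
  ∏ i, ∏ s ∈ range (f i), ((α i + s) / (s + 1))

variable {α : Fin n → ℝ}

theorem rho_add (f : Fin n → ℕ) (i : Fin n) :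
    rho α (f + dl i) = rho α f * ((α i + f i) / (f i + 1)) := by
  unfold rho
  have h : ∀ j, ∏ s ∈ range ((f + dl i) j), ((α j + s) / ((s : ℝ) + 1))
      = (∏ s ∈ range (f j), ((α j + s) / ((s : ℝ) + 1)))
        * (if j = i then (α i + f i) / (f i + 1) else 1) := by
    intro j
    by_cases hj : j = i
    · subst hj
      rw [Pi.add_apply, dl_self, prod_range_succ, if_pos rfl]
    · rw [Pi.add_apply, dl_ne hj, add_zero, if_neg hj, mul_one]
  simp only [h, prod_mul_distrib, prod_ite_eq', mem_univ, if_true]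

theorem rho_pos [hα : Fact (∀ i, 0 < α i)] (f : Fin n → ℕ) : 0 < rho α f := by
  unfold rho
  refine prod_pos fun i _ => prod_pos fun s _ => ?_
  have := hα.out i
  positivity

theorem rho_one (f : Fin n → ℕ) : rho (fun _ : Fin n => (1 : ℝ)) f = 1 := by
  unfold rho
  refine prod_eq_one fun i _ => prod_eq_one fun s _ => ?_
  have : (s : ℝ) + 1 ≠ 0 := by positivity
  rw [add_comm]
  exact div_self this

/-- the total weight of a class -/
noncomputable def ZZ (α : Fin n → ℝ) (B : Finset (Fin n)) (f : Fin n → ℕ) : ℝ :=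
  ∑ g ∈ cls B f, rho α g

theorem ZZ_pos [hα : Fact (∀ i, 0 < α i)] (B : Finset (Fin n)) (f : Fin n → ℕ) :
    0 < ZZ α B f :=
  sum_pos (fun g _ => rho_pos g) ⟨f, self_mem_cls B f⟩

/-- the block average -/
noncomputable def av (α : Fin n → ℝ) (B : Finset (Fin n)) (c : (Fin n → ℕ) → ℝ)
    (f : Fin n → ℕ) : ℝ :=
  (∑ g ∈ cls B f, rho α g * c g) / ZZ α B f

theorem av_add (B : Finset (Fin n)) (c c' : (Fin n → ℕ) → ℝ) (f : Fin n → ℕ) :
    av α B (fun g => c g + c' g) f = av α B c f + av α B c' f := by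
  simp [av, Finset.sum_add_distrib, add_div, mul_add]

theorem av_mul (B : Finset (Fin n)) (a : ℝ) (c : (Fin n → ℕ) → ℝ) (f : Fin n → ℕ) :
    av α B (fun g => a * c g) f = a * av α B c f := by
  simp only [av, mul_left_comm _ a, ← Finset.mul_sum, mul_div_assoc]

theorem av_sum {ι : Type} (s : Finset ι) (B : Finset (Fin n)) (c : ι → (Fin n → ℕ) → ℝ)
    (f : Fin n → ℕ) :
    av α B (fun g => ∑ i ∈ s, c i g) f = ∑ i ∈ s, av α B (c i) f := by
  simp only [av, Finset.mul_sum]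
  rw [Finset.sum_comm, Finset.sum_div]

theorem av_const [hα : Fact (∀ i, 0 < α i)] (B : Finset (Fin n)) (a : ℝ) (f : Fin n → ℕ) :
    av α B (fun _ => a) f = a := by
  have := (ZZ_pos (α := α) B f).ne'
  unfold av
  rw [← Finset.sum_mul]
  change ZZ α B f * a / ZZ α B f = a
  field_simp

theorem av_congr {B : Finset (Fin n)} {c c' : (Fin n → ℕ) → ℝ} {f : Fin n → ℕ}
    (h : ∀ g ∈ cls B f, c g = c' g) : av α B c f = av α B c' f := by
  unfold av
  rw [Finset.sum_congr rfl (fun g hg => by rw [h g hg])]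

theorem av_mono [hα : Fact (∀ i, 0 < α i)] {B : Finset (Fin n)} {c c' : (Fin n → ℕ) → ℝ}
    {f : Fin n → ℕ} (h : ∀ g ∈ cls B f, c g ≤ c' g) : av α B c f ≤ av α B c' f := by
  unfold av
  refine div_le_div_of_nonneg_right ?_ (ZZ_pos B f).le
  exact sum_le_sum fun g hg => mul_le_mul_of_nonneg_left (h g hg) (rho_pos g).le

theorem abs_av_le [hα : Fact (∀ i, 0 < α i)] (B : Finset (Fin n)) (c : (Fin n → ℕ) → ℝ)
    (f : Fin n → ℕ) :
    |av α B c f| ≤ av α B (fun g => |c g|) f := by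
  unfold av
  rw [abs_div, abs_of_pos (ZZ_pos B f)]
  refine div_le_div_of_nonneg_right ?_ (ZZ_pos B f).le
  refine (Finset.abs_sum_le_sum_abs _ _).trans (sum_le_sum fun g _ => ?_)
  rw [abs_mul, abs_of_pos (rho_pos g)]

theorem av_eq_of_mem {B : Finset (Fin n)} {f g : Fin n → ℕ} (h : g ∈ cls B f)
    (c : (Fin n → ℕ) → ℝ) : av α B c g = av α B c f := by
  unfold av ZZ
  rw [cls_eq_of_mem h]

theorem av_out [hα : Fact (∀ i, 0 < α i)] {B : Finset (Fin n)} {j : Fin n} (hj : j ∉ B)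
    (f : Fin n → ℕ) (c : (Fin n → ℕ) → ℝ) :
    av α B c (f + dl j) = av α B (fun g => c (g + dl j)) f := by
  unfold av ZZ
  rw [sum_cls_out hj f (fun g => rho α g * c g), sum_cls_out hj f (fun g => rho α g)]
  have hk : ∀ g ∈ cls B f, rho α (g + dl j) = ((α j + f j) / (f j + 1)) * rho α g := by
    intro g hg
    rw [rho_add, (mem_cls.1 hg).2 j hj]
    ring
  have hk0 : 0 < (α j + f j) / ((f j : ℝ) + 1) := by
    have := hα.out j
    positivity
  rw [Finset.sum_congr rfl (fun g hg => by rw [hk g hg]), Finset.sum_congr rfl hk,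
    ← Finset.mul_sum]
  have : ∑ g ∈ cls B f, (α j + f j) / ((f j : ℝ) + 1) * rho α g * c (g + dl j)
      = (α j + f j) / ((f j : ℝ) + 1) * ∑ g ∈ cls B f, rho α g * c (g + dl j) := by
    rw [Finset.mul_sum]
    exact Finset.sum_congr rfl fun g _ => by ring
  rw [this]
  exact mul_div_mul_left _ _ hk0.ne'

/-- `s(g) = Σ_{i ∈ B} (g i + α i)` -/
noncomputable def sA (α : Fin n → ℝ) (B : Finset (Fin n)) (g : Fin n → ℕ) : ℝ :=
  ∑ i ∈ B, ((g i : ℝ) + α i)

theorem sA_eq {B : Finset (Fin n)} {f g : Fin n → ℕ} (h : g ∈ cls B f) :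
    sA α B g = sA α B f := by
  have := block_sum_eq h
  unfold sA
  simp only [Finset.sum_add_distrib]
  have h2 : (∑ i ∈ B, (g i : ℝ)) = ∑ i ∈ B, (f i : ℝ) := by exact_mod_cast this
  rw [h2]

theorem sA_pos [hα : Fact (∀ i, 0 < α i)] {B : Finset (Fin n)} {i0 : Fin n} (h : i0 ∈ B)
    (g : Fin n → ℕ) : 0 < sA α B g := by
  unfold sA
  apply Finset.sum_pos
  · intro i _
    have := hα.out i
    positivity
  · exact ⟨i0, h⟩

theorem sA_in {B : Finset (Fin n)} {i : Fin n} (h : i ∈ B) (g : Fin n → ℕ) :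
    sA α B (g + dl i) = sA α B g + 1 := by
  unfold sA
  have : ∀ j ∈ B, (((g + dl i) j : ℕ) : ℝ) + α j = ((g j : ℝ) + α j) + (if j = i then 1 else 0) := by
    intro j _
    rw [Pi.add_apply, dl_apply]
    push_cast
    ring
  rw [Finset.sum_congr rfl this, Finset.sum_add_distrib]
  simp [h]

theorem sA_out {B : Finset (Fin n)} {i : Fin n} (h : i ∉ B) (g : Fin n → ℕ) :
    sA α B (g + dl i) = sA α B g := by
  unfold sA
  apply Finset.sum_congr rfl
  intro j hj
  have : j ≠ i := fun e => h (e ▸ hj)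
  simp [dl_ne this]

/-- `p_i(g) = (g i + α i) / s(g)` -/
noncomputable def pA (α : Fin n → ℝ) (B : Finset (Fin n)) (g : Fin n → ℕ) (i : Fin n) : ℝ :=
  ((g i : ℝ) + α i) / sA α B g

theorem sum_pA [hα : Fact (∀ i, 0 < α i)] {B : Finset (Fin n)} {i0 : Fin n} (h : i0 ∈ B)
    (g : Fin n → ℕ) : ∑ i ∈ B, pA α B g i = 1 := by
  unfold pA
  rw [← Finset.sum_div]
  exact div_self (sA_pos h g).ne'

/-- the Pólya step -/
noncomputable def TA (α : Fin n → ℝ) (B : Finset (Fin n)) (c : (Fin n → ℕ) → ℝ)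
    (g : Fin n → ℕ) : ℝ :=
  ∑ i ∈ B, pA α B g i * c (g + dl i)

theorem sum_cls_inA {B : Finset (Fin n)} {i i0 : Fin n} (hi : i ∈ B) (hi0 : i0 ∈ B)
    (f : Fin n → ℕ) (h : (Fin n → ℕ) → ℝ) :
    ∑ g ∈ cls B f, rho α g * (((g i : ℝ) + α i) * h (g + dl i)) =
      ∑ g ∈ cls B (f + dl i0), rho α g * ((g i : ℝ) * h g) := by
  have h1 := sum_cls_in hi hi0 f (fun g => rho α g * h g)
  have e1 : ∀ g ∈ cls B f, rho α g * (((g i : ℝ) + α i) * h (g + dl i))
      = ((g i : ℝ) + 1) * (rho α (g + dl i) * h (g + dl i)) := by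
    intro g _
    rw [rho_add]
    have : (g i : ℝ) + 1 ≠ 0 := by positivity
    field_simp
    ring
  rw [Finset.sum_congr rfl e1, h1]
  exact Finset.sum_congr rfl fun g _ => by ring

theorem av_in [hα : Fact (∀ i, 0 < α i)] {B : Finset (Fin n)} {i0 : Fin n} (hi0 : i0 ∈ B)
    (f : Fin n → ℕ) (c : (Fin n → ℕ) → ℝ) :
    av α B c (f + dl i0) = av α B (TA α B c) f := by
  have key : ∀ h : (Fin n → ℕ) → ℝ, ∑ g ∈ cls B f, rho α g * TA α B h g * sA α B f =
      (∑ i ∈ B, ((f + dl i0) i : ℝ)) * ∑ g ∈ cls B (f + dl i0), rho α g * h g := by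
    intro h
    have e1 : ∀ g ∈ cls B f, rho α g * TA α B h g * sA α B f
        = ∑ i ∈ B, rho α g * (((g i : ℝ) + α i) * h (g + dl i)) := by
      intro g hg
      unfold TA pA
      rw [mul_assoc, Finset.sum_mul, Finset.mul_sum]
      apply Finset.sum_congr rfl
      intro i _
      rw [sA_eq hg]
      have := (sA_pos (α := α) hi0 f).ne'
      field_simp
    rw [Finset.sum_congr rfl e1, Finset.sum_comm]
    rw [Finset.sum_congr rfl (fun i hi => sum_cls_inA hi hi0 f h), Finset.sum_comm, Finset.mul_sum]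
    apply Finset.sum_congr rfl
    intro g hg
    rw [← Finset.mul_sum, ← Finset.sum_mul]
    have : (∑ i ∈ B, (g i : ℝ)) = ∑ i ∈ B, ((f + dl i0) i : ℝ) := by
      have := block_sum_eq hg
      exact_mod_cast this
    rw [this]
    ring
  have k1 := key c
  have k2 := key (fun _ => 1)
  have e2 : ∀ g, TA α B (fun _ => (1 : ℝ)) g = 1 := by
    intro g
    simp [TA, sum_pA hi0]
  simp only [e2, mul_one] at k2
  rw [← Finset.sum_mul] at k1 k2
  have hs := (sA_pos (α := α) hi0 f)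
  have hc1' : (0 : ℝ) < ZZ α B f := ZZ_pos B f
  have hc2' : (0 : ℝ) < ZZ α B (f + dl i0) := ZZ_pos B (f + dl i0)
  have k2' : ZZ α B f * sA α B f = (∑ i ∈ B, ((f + dl i0) i : ℝ)) * ZZ α B (f + dl i0) := k2
  have hl : (0 : ℝ) < ∑ i ∈ B, ((f + dl i0) i : ℝ) := by
    by_contra hcon
    have : ZZ α B f * sA α B f ≤ 0 := by
      rw [k2']
      exact mul_nonpos_of_nonpos_of_nonneg (not_lt.1 hcon) hc2'.le
    have : 0 < ZZ α B f * sA α B f := by positivity
    linarith
  unfold av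
  rw [div_eq_div_iff hc2'.ne' hc1'.ne']
  have : (∑ i ∈ B, ((f + dl i0) i : ℝ)) * ((∑ g ∈ cls B (f + dl i0), rho α g * c g) * ZZ α B f) =
      (∑ i ∈ B, ((f + dl i0) i : ℝ)) *
        ((∑ g ∈ cls B f, rho α g * TA α B c g) * ZZ α B (f + dl i0)) := by
    calc _ = ((∑ i ∈ B, ((f + dl i0) i : ℝ)) *
          (∑ g ∈ cls B (f + dl i0), rho α g * c g)) * ZZ α B f := by ring
      _ = ((∑ g ∈ cls B f, rho α g * TA α B c g) * sA α B f) * ZZ α B f := by rw [k1]
      _ = (∑ g ∈ cls B f, rho α g * TA α B c g) * (ZZ α B f * sA α B f) := by ring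
      _ = _ := by rw [k2']; ring
  exact mul_left_cancel₀ hl.ne' this

end Pool.Agent.Y389.KM
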