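import Pool.Agent.Y389.KM.Lift

/-! Adaptation of Pool.Agent.W832.KMP.Iter to site parameters. -/

set_option autoImplicit false

open Finset

namespace Pool.Agent.Y389.KM

open Pool.Agent.W832.KMP (dl dl_apply dl_self dl_ne sum_dl sum_add_dl cls mem_cls self_mem_cls cls_card_pos cls_card_ne cls_eq_of_mem block_sum_eq form config_induction mem_cls_zero qf form_eq_qf ee sum_ee qf_ee form_symm lift sub_dl_add add_dl_sub cls_sub lift_inj form_add const_of_step linear_of_forms linear_lift form_lin form_fsum qq form_qq exists_K lift_const lift_sub)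

variable {n : ℕ} {α : Fin n → ℝ} [hα : Fact (∀ i, 0 < α i)]


/-- the Laplacian on functions of configurations -/
noncomputable def LA (α : Fin n → ℝ) (w : Finset (Fin n) → ℝ) (c : (Fin n → ℕ) → ℝ) (f : Fin n → ℕ) : ℝ :=
  ∑ B, w B * (c f - av α B c f)

/-- one lazy step -/
noncomputable def PA (α : Fin n → ℝ) (w : Finset (Fin n) → ℝ) (ε : ℝ) (c : (Fin n → ℕ) → ℝ) (f : Fin n → ℕ) : ℝ :=
  c f - ε * LA α w c f

theorem LA_congr {w : Finset (Fin n) → ℝ} {c c' : (Fin n → ℕ) → ℝ} {k : ℕ}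
    (h : ∀ f : Fin n → ℕ, ∑ i, f i = k → c f = c' f) (f : Fin n → ℕ) (hf : ∑ i, f i = k) :
    LA α w c f = LA α w c' f := by
  unfold LA
  apply Finset.sum_congr rfl
  intro B _
  rw [h f hf, av_congr (fun g hg => h g (by rw [(mem_cls.1 hg).1, hf]))]

theorem PA_congr {w : Finset (Fin n) → ℝ} {ε : ℝ} {c c' : (Fin n → ℕ) → ℝ} {k : ℕ}
    (h : ∀ f : Fin n → ℕ, ∑ i, f i = k → c f = c' f) (f : Fin n → ℕ) (hf : ∑ i, f i = k) :
    PA α w ε c f = PA α w ε c' f := by
  unfold PA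
  rw [h f hf, LA_congr h f hf]

theorem LA_smul (w : Finset (Fin n) → ℝ) (a : ℝ) (c : (Fin n → ℕ) → ℝ) (f : Fin n → ℕ) :
    LA α w (fun g => a * c g) f = a * LA α w c f := by
  unfold LA
  rw [Finset.mul_sum]
  apply Finset.sum_congr rfl
  intro B _
  rw [av_mul]
  ring

theorem lift_LA (w : Finset (Fin n) → ℝ) (c : (Fin n → ℕ) → ℝ) (η : Fin n → ℕ) :
    LA α w (lift c) η = lift (LA α w c) η := by
  unfold LA
  have : ∀ B, av α B (lift c) η = lift (av α B c) η := fun B => lift_av B c η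
  simp only [this]
  unfold lift
  simp only [Finset.mul_sum]
  rw [Finset.sum_comm' (s := univ) (t := fun _ => univ) (t' := univ) (s' := fun _ => univ)
    (by simp)]
  apply Finset.sum_congr rfl
  intro B _
  rw [← Finset.sum_sub_distrib, Finset.mul_sum]
  apply Finset.sum_congr rfl
  intro i _
  ring

theorem form_PA (w : Finset (Fin n) → ℝ) (ε : ℝ) (c : (Fin n → ℕ) → ℝ) (θ : Fin n → ℕ)
    (z : Fin n → ℝ) :
    form (PA α w ε c) θ z = (1 - ε * ∑ B, w B) * form c θ z +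
      ε * ∑ B, w B * form (av α B c) θ z := by
  have e : PA α w ε c = fun f => (1 - ε * ∑ B, w B) * c f + ε * ∑ B, w B * av α B c f := by
    funext f
    unfold PA LA
    simp only [mul_sub, Finset.sum_sub_distrib, ← Finset.sum_mul]
    ring
  rw [e, form_lin, form_fsum]

theorem step_PA (w : Finset (Fin n) → ℝ) (hw : ∀ B, 0 ≤ w B) (ε : ℝ) (hε : 0 ≤ ε)
    (hε2 : ε * ∑ B, w B ≤ 1) (c q : (Fin n → ℕ) → ℝ) (m : ℕ) (K : ℝ)
    (H : ∀ g : Fin n → ℕ, ∑ i, g i = m → ∀ u : Fin n → ℝ, ∑ i, u i = 0 →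
      |form c g u| ≤ K * form q 0 u) :
    ∀ g : Fin n → ℕ, ∑ i, g i = m → ∀ u : Fin n → ℝ, ∑ i, u i = 0 →
      |form (PA α w ε c) g u| ≤ K * form (PA α w ε q) 0 u := by
  intro g hg u hu
  rw [form_PA, form_PA, mul_add]
  have h0 : 0 ≤ 1 - ε * ∑ B, w B := by linarith
  refine (abs_add_le _ _).trans (add_le_add ?_ ?_)
  · rw [abs_mul, abs_of_nonneg h0, mul_left_comm]
    exact mul_le_mul_of_nonneg_left (H g hg u hu) h0
  · rw [abs_mul, abs_of_nonneg hε, mul_left_comm]
    refine mul_le_mul_of_nonneg_left ?_ hε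
    refine (Finset.abs_sum_le_sum_abs _ _).trans ?_
    rw [Finset.mul_sum]
    refine Finset.sum_le_sum fun B _ => ?_
    rw [abs_mul, abs_of_nonneg (hw B), mul_left_comm]
    exact mul_le_mul_of_nonneg_left (one_step B c q m K H g hg u hu) (hw B)

theorem iter_PA (w : Finset (Fin n) → ℝ) (hw : ∀ B, 0 ≤ w B) (ε : ℝ) (hε : 0 ≤ ε)
    (hε2 : ε * ∑ B, w B ≤ 1) (c q : (Fin n → ℕ) → ℝ) (m : ℕ) (K : ℝ)
    (H : ∀ g : Fin n → ℕ, ∑ i, g i = m → ∀ u : Fin n → ℝ, ∑ i, u i = 0 →
      |form c g u| ≤ K * form q 0 u) (t : ℕ) :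
    ∀ g : Fin n → ℕ, ∑ i, g i = m → ∀ u : Fin n → ℝ, ∑ i, u i = 0 →
      |form ((PA α w ε)^[t] c) g u| ≤ K * form ((PA α w ε)^[t] q) 0 u := by
  induction t with
  | zero => exact H
  | succ t ih =>
    simp only [Function.iterate_succ_apply']
    exact step_PA w hw ε hε hε2 _ _ m K ih

theorem iter_eigen (w : Finset (Fin n) → ℝ) (ε : ℝ) (c : (Fin n → ℕ) → ℝ) (k : ℕ) (x : ℝ)
    (h : ∀ f : Fin n → ℕ, ∑ i, f i = k → LA α w c f = x * c f) (t : ℕ) :
    ∀ f : Fin n → ℕ, ∑ i, f i = k → (PA α w ε)^[t] c f = (1 - ε * x) ^ t * c f := by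
  induction t with
  | zero => intro f _; simp
  | succ t ih =>
    intro f hf
    rw [Function.iterate_succ_apply', PA_congr ih f hf]
    unfold PA
    rw [LA_smul, h f hf]
    ring

/-- `x` is an eigenvalue with nonconstant eigenfunction on `k` particles -/
def EigA (α : Fin n → ℝ) (w : Finset (Fin n) → ℝ) (k : ℕ) (x : ℝ) : Prop :=
  ∃ c : (Fin n → ℕ) → ℝ, (∀ f : Fin n → ℕ, ∑ i, f i = k → LA α w c f = x * c f) ∧
    ∃ f g : Fin n → ℕ, ∑ i, f i = k ∧ ∑ i, g i = k ∧ c f ≠ c g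

theorem EigA_up (i0 : Fin n) (w : Finset (Fin n) → ℝ) (k : ℕ) (x : ℝ) (h : EigA α w k x) :
    EigA α w (k + 1) x := by
  obtain ⟨c, hc, f, g, hf, hg, hne⟩ := h
  refine ⟨lift c, ?_, ?_⟩
  · intro η hη
    rw [lift_LA]
    unfold lift
    rw [Finset.mul_sum]
    apply Finset.sum_congr rfl
    intro i _
    by_cases h0 : η i = 0
    · rw [h0]; simp
    · rw [hc (η - dl i)]
      · ring
      · have := sum_add_dl (η - dl i) i
        rw [sub_dl_add h0, hη] at this
        omega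
  · by_contra hcon
    push Not at hcon
    -- the lift is constant
    have hk : (k : ℝ) + 1 ≠ 0 := by positivity
    set η0 : Fin n → ℕ := Pi.single i0 (k + 1) with hη0
    have hη0s : ∑ i, η0 i = k + 1 := by simp [hη0]
    set a : ℝ := lift c η0 / (k + 1) with ha
    have h1 : ∀ η : Fin n → ℕ, ∑ i, η i = k + 1 → lift (fun f => c f - a) η = 0 := by
      intro η hη
      rw [lift_sub, lift_const a k (fun _ => a) (fun _ _ => rfl) η hη, hcon η η0 hη hη0s, ha]
      field_simp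
      ring
    have h2 := lift_inj i0 k _ h1
    apply hne
    have h3 := h2 f hf
    have h4 := h2 g hg
    linarith

theorem EigA_down (i0 : Fin n) (w : Finset (Fin n) → ℝ) (m : ℕ) (x : ℝ)
    (c : (Fin n → ℕ) → ℝ) (hc : ∀ f : Fin n → ℕ, ∑ i, f i = m + 2 → LA α w c f = x * c f)
    (hne : ∃ f g : Fin n → ℕ, ∑ i, f i = m + 2 ∧ ∑ i, g i = m + 2 ∧ c f ≠ c g)
    (h : ∀ θ : Fin n → ℕ, ∑ i, θ i = m → ∀ u : Fin n → ℝ, ∑ i, u i = 0 → form c θ u = 0) :
    EigA α w (m + 1) x := by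
  obtain ⟨a, ha⟩ := linear_of_forms i0 m c h
  set c' : (Fin n → ℕ) → ℝ := fun ζ => (∑ i, a i * (ζ i : ℝ)) / (m + 1) with hc'
  have hcl : ∀ η : Fin n → ℕ, ∑ i, η i = m + 2 → c η = lift c' η := by
    intro η hη
    rw [ha η hη, linear_lift m a η hη]
  refine ⟨c', ?_, ?_⟩
  · have h1 := lift_inj i0 (m + 1) (fun f => LA α w c' f - x * c' f) ?_
    · intro f hf
      have := h1 f hf
      linarith
    · intro η hη
      rw [lift_sub, ← lift_LA, ← LA_congr hcl η hη, hc η hη, hcl η hη]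
      unfold lift
      rw [Finset.mul_sum, ← Finset.sum_sub_distrib]
      apply Finset.sum_eq_zero
      intro i _
      ring
  · by_contra hcon
    push Not at hcon
    obtain ⟨f, g, hf, hg, hfg⟩ := hne
    apply hfg
    have h2 : ∀ ζ : Fin n → ℕ, ∑ i, ζ i = m + 1 → c' ζ = c' (Pi.single i0 (m + 1)) :=
      fun ζ hζ => hcon ζ _ hζ (by simp)
    rw [hcl f hf, hcl g hg, lift_const _ (m + 1) c' h2 f hf, lift_const _ (m + 1) c' h2 g hg]

/-- the main estimate -/
theorem EigA_lower (i0 : Fin n) (w : Finset (Fin n) → ℝ) (hw : ∀ B, 0 ≤ w B) (ε : ℝ)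
    (hε : 0 < ε) (hε2 : ε * ∑ B, w B ≤ 1) (x0 : ℝ)
    (h2 : ∀ x, EigA α w 2 x → x0 ≤ x)
    (hq : ∀ u : Fin n → ℝ, ∑ i, u i = 0 →
      ∃ C : ℝ, ∀ t : ℕ, |form ((PA α w ε)^[t] qq) 0 u| ≤ C * (1 - ε * x0) ^ t)
    (hβ : 0 ≤ 1 - ε * x0) :
    ∀ m : ℕ, ∀ x, EigA α w (m + 2) x → x0 ≤ x := by
  intro m
  induction m with
  | zero => exact h2
  | succ m ih =>
    rintro x ⟨c, hc, hne⟩
    by_cases hform : ∀ θ : Fin n → ℕ, ∑ i, θ i = m + 1 → ∀ u : Fin n → ℝ, ∑ i, u i = 0 →
        form c θ u = 0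
    · exact ih x (EigA_down i0 w (m + 1) x c hc hne hform)
    · push Not at hform
      obtain ⟨θ, hθ, u, hu, hfu⟩ := hform
      obtain ⟨K, hK⟩ := exists_K c (m + 1)
      obtain ⟨C, hC⟩ := hq u hu
      have key : ∀ t : ℕ, |1 - ε * x| ^ t * |form c θ u| ≤ |K| * C * (1 - ε * x0) ^ t := by
        intro t
        have h3 := iter_PA (α := α) w hw ε hε.le hε2 c qq (m + 1) K hK t θ hθ u hu
        have h4 : form ((PA α w ε)^[t] c) θ u = (1 - ε * x) ^ t * form c θ u := by
          unfold form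
          rw [Finset.mul_sum]
          apply Finset.sum_congr rfl
          intro a _
          rw [Finset.mul_sum]
          apply Finset.sum_congr rfl
          intro b _
          rw [iter_eigen w ε c (m + 1 + 2) x hc t (θ + dl a + dl b)
            (by rw [sum_add_dl, sum_add_dl, hθ])]
          ring
        rw [h4, abs_mul, abs_pow] at h3
        refine h3.trans ((le_abs_self _).trans ?_)
        rw [abs_mul, mul_assoc]
        exact mul_le_mul_of_nonneg_left (hC t) (abs_nonneg _)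
      by_contra hcon
      push Not at hcon
      -- then |1 - ε x| > 1 - ε x0 ≥ 0
      have h5 : 1 - ε * x0 < |1 - ε * x| := by
        refine lt_of_lt_of_le ?_ (le_abs_self _)
        have : ε * x < ε * x0 := mul_lt_mul_of_pos_left hcon hε
        linarith
      have h6 : 0 < |1 - ε * x| := lt_of_le_of_lt hβ h5
      set r : ℝ := (1 - ε * x0) / |1 - ε * x| with hr
      have hr0 : 0 ≤ r := div_nonneg hβ h6.le
      have hr1 : r < 1 := (div_lt_one h6).2 h5
      have h7 : ∀ t : ℕ, |form c θ u| ≤ |K| * C * r ^ t := by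
        intro t
        have h8 := key t
        have h9 : 0 < |1 - ε * x| ^ t := by positivity
        rw [hr, div_pow, ← mul_div_assoc, le_div_iff₀ h9]
        linarith
      have h10 : Filter.Tendsto (fun t : ℕ => |K| * C * r ^ t) Filter.atTop (nhds (|K| * C * 0)) :=
        (tendsto_pow_atTop_nhds_zero_of_lt_one hr0 hr1).const_mul _
      have h11 := ge_of_tendsto' h10 h7
      rw [mul_zero] at h11
      exact hfu (abs_eq_zero.1 (le_antisymm h11 (abs_nonneg _)))

theorem EigA_le (w : Finset (Fin n) → ℝ) (hw : ∀ B, 0 ≤ w B) (k : ℕ) (x : ℝ) (h : EigA α w k x) :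
    x ≤ 2 * ∑ B, w B := by
  classical
  obtain ⟨c, hc, f, g, hf, hg, hne⟩ := h
  obtain ⟨p, hp, hmax⟩ := Finset.exists_max_image (piAntidiag (univ : Finset (Fin n)) k)
    (fun f => |c f|) ⟨f, by simp [hf]⟩
  have hps : ∑ i, p i = k := by simpa using hp
  have hmax' : ∀ f : Fin n → ℕ, ∑ i, f i = k → |c f| ≤ |c p| := fun f hf =>
    hmax f (by simp [hf])
  have hpos : 0 < |c p| := by
    rcases eq_or_lt_of_le (abs_nonneg (c p)) with h0 | h0
    · exfalso
      apply hne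
      have h1 := hmax' f hf
      have h2 := hmax' g hg
      rw [← h0] at h1 h2
      rw [abs_nonpos_iff.1 h1, abs_nonpos_iff.1 h2]
    · exact h0
  have h3 := hc p hps
  have h4 : |LA α w c p| ≤ 2 * (∑ B, w B) * |c p| := by
    unfold LA
    refine (Finset.abs_sum_le_sum_abs _ _).trans ?_
    rw [Finset.mul_sum, Finset.sum_mul]
    refine Finset.sum_le_sum fun B _ => ?_
    rw [abs_mul, abs_of_nonneg (hw B)]
    have h5 : |av α B c p| ≤ |c p| := by
      refine (abs_av_le B c p).trans ?_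
      refine (av_mono (c' := fun _ => |c p|) fun g hg => ?_).trans (av_const _ _ _).le
      exact hmax' g (by rw [(mem_cls.1 hg).1, hps])
    have h6 : |c p - av α B c p| ≤ 2 * |c p| := by
      refine (abs_sub _ _).trans ?_
      linarith
    calc w B * |c p - av α B c p| ≤ w B * (2 * |c p|) := mul_le_mul_of_nonneg_left h6 (hw B)
      _ = 2 * w B * |c p| := by ring
  rw [h3, abs_mul] at h4
  have h7 := le_of_mul_le_mul_right h4 hpos
  exact (le_abs_self x).trans h7


end Pool.Agent.Y389.KM
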