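import Pool.Agent.Y389.KM.Step

/-! Adaptation of Pool.Agent.W832.KMP.Lift to site parameters. -/

set_option autoImplicit false

open Finset

namespace Pool.Agent.Y389.KM

open Pool.Agent.W832.KMP (dl dl_apply dl_self dl_ne sum_dl sum_add_dl cls mem_cls self_mem_cls cls_card_pos cls_card_ne cls_eq_of_mem block_sum_eq form config_induction mem_cls_zero qf form_eq_qf ee sum_ee qf_ee form_symm lift sub_dl_add add_dl_sub cls_sub lift_inj form_add const_of_step linear_of_forms linear_lift form_lin form_fsum qq form_qq exists_K lift_const lift_sub)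

variable {n : ℕ} {α : Fin n → ℝ} [hα : Fact (∀ i, 0 < α i)]


theorem av_one_out {B : Finset (Fin n)} {i : Fin n} (hi : i ∉ B) (c : (Fin n → ℕ) → ℝ)
    (η : Fin n → ℕ) :
    av α B (fun g => (g i : ℝ) * c (g - dl i)) η = (η i : ℝ) * av α B c (η - dl i) := by
  by_cases h : η i = 0
  · rw [h, Nat.cast_zero, zero_mul]
    have : av α B (fun g => (g i : ℝ) * c (g - dl i)) η = av α B (fun _ => (0 : ℝ)) η := by
      apply av_congr
      intro g hg
      rw [mem_cls] at hg
      rw [hg.2 i hi, h]
      simp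
    rw [this, av_const]
  · conv_lhs => rw [← sub_dl_add h]
    rw [av_out hi]
    have : av α B (fun g => (((g + dl i) i : ℕ) : ℝ) * c (g + dl i - dl i)) (η - dl i) =
        av α B (fun g => (η i : ℝ) * c g) (η - dl i) := by
      apply av_congr
      intro g hg
      rw [mem_cls] at hg
      rw [add_dl_sub]
      have e : (g + dl i) i = η i := by
        have h1 := hg.2 i hi
        have h2 := congrFun (sub_dl_add h) i
        simp only [Pi.add_apply] at h2 ⊢
        omega
      rw [e]
    rw [this, av_mul]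

theorem av_block (B : Finset (Fin n)) (c : (Fin n → ℕ) → ℝ) (η : Fin n → ℕ) :
    av α B (fun g => ∑ i ∈ B, (g i : ℝ) * c (g - dl i)) η =
      ∑ i ∈ B, (η i : ℝ) * av α B c (η - dl i) := by
  by_cases h : ∃ i0 ∈ B, η i0 ≠ 0
  · obtain ⟨i0, hi0, hne⟩ := h
    obtain ⟨f, rfl⟩ : ∃ f, η = f + dl i0 := ⟨η - dl i0, (sub_dl_add hne).symm⟩
    -- right side
    have hR : ∑ i ∈ B, (((f + dl i0) i : ℕ) : ℝ) * av α B c (f + dl i0 - dl i) =
        (∑ i ∈ B, (((f + dl i0) i : ℕ) : ℝ)) * av α B c f := by
      rw [Finset.sum_mul]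
      apply Finset.sum_congr rfl
      intro i hi
      by_cases h0 : (f + dl i0) i = 0
      · rw [h0]; simp
      · rw [av_eq_of_mem (cls_sub hi hi0 h0)]
    rw [hR]
    have key : ∀ c : (Fin n → ℕ) → ℝ,
        ∑ g ∈ cls B (f + dl i0), rho α g * ∑ i ∈ B, (g i : ℝ) * c (g - dl i) =
          sA α B f * ∑ g ∈ cls B f, rho α g * c g := by
      intro c
      simp only [Finset.mul_sum]
      rw [Finset.sum_comm]
      have : ∀ i ∈ B, ∑ g ∈ cls B (f + dl i0), rho α g * ((g i : ℝ) * c (g - dl i)) =
          ∑ g ∈ cls B f, rho α g * (((g i : ℝ) + α i) * c g) := by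
        intro i hi
        rw [← sum_cls_inA hi hi0 f (fun g => c (g - dl i))]
        simp only [add_dl_sub]
      rw [Finset.sum_congr rfl this, Finset.sum_comm]
      apply Finset.sum_congr rfl
      intro g hg
      rw [← Finset.mul_sum, ← Finset.sum_mul, ← sA_eq hg]
      unfold sA
      ring
    have k1 := key c
    have k2 := key (fun _ => 1)
    have e3 : ∀ g ∈ cls B (f + dl i0), rho α g * ∑ i ∈ B, (g i : ℝ) * (1 : ℝ) =
        rho α g * ∑ i ∈ B, (((f + dl i0) i : ℕ) : ℝ) := by
      intro g hg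
      simp only [mul_one]
      congr 1
      exact_mod_cast block_sum_eq hg
    rw [Finset.sum_congr rfl e3, ← Finset.sum_mul] at k2
    simp only [mul_one] at k2
    have hc1' : (0 : ℝ) < ZZ α B f := ZZ_pos B f
    have hc2' : (0 : ℝ) < ZZ α B (f + dl i0) := ZZ_pos B (f + dl i0)
    change ZZ α B (f + dl i0) * _ = sA α B f * ZZ α B f at k2
    unfold av
    rw [k1]
    rw [← mul_div_assoc, div_eq_div_iff hc2'.ne' hc1'.ne']
    linear_combination (-(∑ g ∈ cls B f, rho α g * c g)) * k2
  · push Not at h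
    have h2 : ∑ i ∈ B, (η i : ℝ) * av α B c (η - dl i) = 0 := by
      apply Finset.sum_eq_zero
      intro i hi
      rw [h i hi]; simp
    rw [h2]
    have : av α B (fun g => ∑ i ∈ B, (g i : ℝ) * c (g - dl i)) η = av α B (fun _ => (0 : ℝ)) η := by
      apply av_congr
      intro g hg
      apply Finset.sum_eq_zero
      intro i hi
      have h3 := block_sum_eq hg
      rw [Finset.sum_eq_zero h] at h3
      rw [Finset.sum_eq_zero_iff.1 h3 i hi]
      simp
    rw [this, av_const]

theorem lift_av (B : Finset (Fin n)) (c : (Fin n → ℕ) → ℝ) (η : Fin n → ℕ) :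
    av α B (lift c) η = lift (av α B c) η := by
  have e1 : av α B (lift c) η = av α B (fun g => (∑ i ∈ B, (g i : ℝ) * c (g - dl i)) +
      ∑ i ∈ Bᶜ, (g i : ℝ) * c (g - dl i)) η := by
    apply av_congr
    intro g _
    unfold lift
    rw [Finset.sum_add_sum_compl]
  rw [e1, av_add, av_block, av_sum]
  unfold lift
  rw [← Finset.sum_add_sum_compl B]
  congr 1
  apply Finset.sum_congr rfl
  intro i hi
  exact av_one_out (Finset.mem_compl.1 hi) c η
end Pool.Agent.Y389.KM
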